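import Pool.Agent.N246.HMW.Final

/-!
Weights for the Hilbert transform on functions of mean zero: a weight `U` is admissible if and only
if `U ∈ A_p` or `U(x) = |x - ζ|^p W(x)` with a complex number `ζ` and a weight `W ∈ A_p`.
-/

set_option autoImplicit false
open MeasureTheory Set
open scoped ENNReal NNReal

namespace Pool.Agent.Results.MP_945c9c_an.MeanZeroWeights

open Pool.Agent.N246.MZ

/-- **Characterisation of the admissible weights.** For `1 < p < ∞` a weight `U` is admissible if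
and only if `U` belongs to `A_p`, or `U` is (almost everywhere) of the form `|x - ζ|^p W(x)` with
`ζ ∈ ℂ` and a weight `W ∈ A_p`. -/
theorem result (p : ℝ) (hp : 1 < p) (U : ℝ → ℝ≥0) (hU : IsWeight U) :
    Admissible p U ↔ (Ap p U ∨ ∃ (ζ : ℂ) (W : ℝ → ℝ≥0), IsWeight W ∧ Ap p W ∧
      ∀ᵐ x : ℝ, U x = ‖(x : ℂ) - ζ‖₊ ^ p * W x) := by
  have hp0 : 0 < p := by linarith
  rw [char hp hU]
  constructor
  · rintro (h | ⟨ζ, h2, h3⟩)
    · exact Or.inl (h.ap hp hU)
    · refine Or.inr ⟨ζ, divW p ζ U, h2, h3.ap hp h2, ?_⟩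
      filter_upwards [ae_ne ζ] with x hx
      have h0 : ‖(x : ℂ) - ζ‖₊ ≠ 0 := by
        rw [ne_eq, nnnorm_eq_zero]; exact sub_ne_zero.2 hx
      rw [divW, ← mul_assoc, ← NNReal.rpow_add h0]
      simp
  · rintro (h | ⟨ζ, W, hW, hA, hUW⟩)
    · exact Or.inl (Pool.Agent.N246.HMW.strong_of_ap hp hU h)
    · right
      have hae : ∀ᵐ x : ℝ, divW p ζ U x = W x := by
        filter_upwards [hUW, ae_ne ζ] with x hx hne
        have h0 : ‖(x : ℂ) - ζ‖₊ ≠ 0 := by
          rw [ne_eq, nnnorm_eq_zero]; exact sub_ne_zero.2 hne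
        rw [divW, hx, ← mul_assoc, ← NNReal.rpow_add h0]
        simp
      refine ⟨ζ, ⟨divW_meas _ hU.meas, fun R => ?_, fun h => hW.ne_zero ?_⟩, ?_⟩
      · refine lt_of_eq_of_lt (lintegral_congr_ae ?_) (hW.loc R)
        filter_upwards [ae_restrict_of_ae hae] with x hx
        rw [hx]
      · filter_upwards [h, hae] with x h1 h2
        rw [← h2]; exact h1
      · obtain ⟨C, hC⟩ := Pool.Agent.N246.HMW.strong_of_ap hp hW hA
        refine ⟨C, fun f g hf hg => ?_⟩
        have e : ∀ k : ℝ → ℂ, nrm p (divW p ζ U) k = nrm p W k := by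
          intro k
          refine lintegral_congr_ae ?_
          filter_upwards [hae] with x hx
          rw [hx]
        rw [e, e]
        exact hC f g hf hg

end Pool.Agent.Results.MP_945c9c_an.MeanZeroWeights
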